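import Pool.Agent.Lib.MP_9fcec4_mp.Numeric
import Pool.Agent.Lib.MP_9fcec4_mp.Sanity

/-!
Ten protons at `t` times the points `(±15,0,0)`, `(±6,0,0)`, `(0,±7,0)`, `(±21,0,0)`,
`(0,±16,0)` with `t` large violate the inequality `I[N+1] < I[N]` at `N = 3`.

Idea of the proof. For large `t` the energy is `E(M) = M e + F(M)/t + o(1/t)` where `F(M)` is
the least classical Coulomb energy of `M` point electrons sitting at `M` different sites in the
field of the other nuclei, and `F(2) + F(4) < 2 F(3)` for these ten sites.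
-/

open Pool.Agent.Lib.MP_9fcec4_mp

namespace Pool.Agent.Results.MP_9fcec4_mp.ConvexityFails

lemma tenSites_eq (k : Fin 10) : tenSites k = site k := by
  fin_cases k <;> simp [tenSites, site, px, py]

/-- For the Coulomb system of ten protons at `t • tenSites k`, with `t` large, the ionization
energies satisfy `I[3] < I[4]` and `I[4] > 0`. -/
theorem result : ∃ t₀ : ℝ, ∀ t ≥ t₀,
    Function.Injective (fun k => t • tenSites k) ∧
    ionization (fun k => t • tenSites k) (fun _ => 1) 3 <
      ionization (fun k => t • tenSites k) (fun _ => 1) 4 ∧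
    0 < ionization (fun k => t • tenSites k) (fun _ => 1) 4 := by
  obtain ⟨t₀, h⟩ := main
  refine ⟨t₀, fun t ht => ?_⟩
  obtain ⟨h0, h1, h2⟩ := h t ht
  have e : tenSites = fun k : Fin 10 => site k := funext tenSites_eq
  rw [e]
  refine ⟨?_, h1, h2⟩
  intro k l hkl
  exact site_inj (smul_right_injective E3 h0.ne' hkl)

/-- The literal negation of the conjecture. -/
theorem conjecture_false : ¬ ∀ (K : ℕ) (R : Fin K → E3) (Z : Fin K → ℕ), 1 ≤ K →
    Function.Injective R → (∀ k, 1 ≤ Z k) → ∀ N : ℕ, 1 ≤ N →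
      ionization R Z (N + 1) < ionization R Z N ∨
        (ionization R Z N = 0 ∧ ionization R Z (N + 1) = 0) := by
  intro h
  obtain ⟨t₀, ht⟩ := result
  obtain ⟨h1, h2, h3⟩ := ht t₀ le_rfl
  rcases h 10 (fun k => t₀ • tenSites k) (fun _ => 1) (by norm_num) h1 (fun _ => le_rfl) 3
    (by norm_num) with h4 | h4
  · exact absurd h4 (not_lt.mpr h2.le)
  · exact h3.ne' h4.2

end Pool.Agent.Results.MP_9fcec4_mp.ConvexityFails
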